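import Pool.Agent.Lib.MP_df5726_co.Core

/-!
# Coordinates on the macro-grid, the projection of the cells to the macro-grid, and the tiles
-/

namespace Pool.Agent.Lib.MP_df5726_co

open Finset

/-- The cell with label `r` of the macro-cell `(i, j)`. -/
def enc (i j : ℤ) (r : ℕ) : ℤ × ℤ := (((r % 6 : ℕ) : ℤ) + 6 * i + j, ((r / 6 : ℕ) : ℤ) - i + 6 * j)

/-- Label of a cell. -/
def decR (z : ℤ × ℤ) : ℕ := ((z.1 + 6 * z.2) % 37).toNat

/-- Second coordinate of the macro-cell of a cell. -/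
def decJ (z : ℤ × ℤ) : ℤ := (z.1 + 6 * z.2) / 37

/-- First coordinate of the macro-cell of a cell. -/
def decI (z : ℤ × ℤ) : ℤ := (6 * (z.1 - ((decR z % 6 : ℕ) : ℤ)) - (z.2 - ((decR z / 6 : ℕ) : ℤ))) / 37

theorem decR_lt (z : ℤ × ℤ) : decR z < 37 := by
  unfold decR; omega

theorem enc_dec (z : ℤ × ℤ) : enc (decI z) (decJ z) (decR z) = z := by
  obtain ⟨x, y⟩ := z
  unfold enc decI decJ
  have h1 : ((decR (x, y) : ℕ) : ℤ) = (x + 6 * y) % 37 := by
    unfold decR
    rw [Int.toNat_of_nonneg (by omega)]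
  ext <;> simp only <;> push_cast <;> omega

theorem decR_enc (i j : ℤ) (r : ℕ) (hr : r < 37) : decR (enc i j r) = r := by
  unfold enc decR
  simp only
  push_cast
  omega

theorem decJ_enc (i j : ℤ) (r : ℕ) (hr : r < 37) : decJ (enc i j r) = j := by
  unfold enc decJ
  simp only
  push_cast
  omega

theorem decI_enc (i j : ℤ) (r : ℕ) (hr : r < 37) : decI (enc i j r) = i := by
  have h := decR_enc i j r hr
  unfold decI
  rw [h]
  unfold enc
  simp only
  push_cast
  omega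

theorem enc_inj {i j i' j' : ℤ} {r r' : ℕ} (hr : r < 37) (hr' : r' < 37)
    (h : enc i j r = enc i' j' r') : i = i' ∧ j = j' ∧ r = r' := by
  refine ⟨?_, ?_, ?_⟩
  · rw [← decI_enc i j r hr, h, decI_enc i' j' r' hr']
  · rw [← decJ_enc i j r hr, h, decJ_enc i' j' r' hr']
  · rw [← decR_enc i j r hr, h, decR_enc i' j' r' hr']

theorem enc_add (i j a b : ℤ) (r : ℕ) :
    enc (i + a) (j + b) r = enc i j r + (6 * a + b, -a + 6 * b) := by
  unfold enc
  ext <;> simp only [Prod.fst_add, Prod.snd_add] <;> ring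

/-- Horizontal shift of a code. -/
def dx (c : ℕ) : ℤ := if c < 37 then 0 else if c < 74 then 1 else 0

/-- Vertical shift of a code. -/
def dy (c : ℕ) : ℤ := if c < 74 then 0 else 1

/-- The cell with code `c` relative to the macro-cell `(i, j)`. -/
def cellOf (i j : ℤ) (c : ℕ) : ℤ × ℤ := enc (i + dx c) (j + dy c) (c % 37)

theorem cellOf_eq (i j : ℤ) (c : ℕ) :
    cellOf i j c = cellOf 0 0 c + (6 * i + j, -i + 6 * j) := by
  unfold cellOf
  rw [← enc_add]
  congr 1 <;> ring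

/-- The tile of the placement `p` at the macro-cell `(i, j)`. -/
def tile (i j : ℤ) (p : ℕ × ℕ × ℕ) : Finset (ℤ × ℤ) :=
  {cellOf i j p.1, cellOf i j p.2.1, cellOf i j p.2.2}

theorem mem_tile (i j : ℤ) (p : ℕ × ℕ × ℕ) (z : ℤ × ℤ) :
    z ∈ tile i j p ↔ ∃ c, memP c p ∧ z = cellOf i j c := by
  unfold tile memP
  simp only [Finset.mem_insert, Finset.mem_singleton]
  constructor
  · rintro (h | h | h)
    · exact ⟨_, Or.inl rfl, h⟩
    · exact ⟨_, Or.inr (Or.inl rfl), h⟩
    · exact ⟨_, Or.inr (Or.inr rfl), h⟩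
  · rintro ⟨c, h | h | h, rfl⟩ <;> subst h <;> simp

/-- The shape of the placements: L-trominoes with middle cell `p.1`. -/
theorem shape : ∀ (s : Bool) (t u : ZMod 3), ∀ p ∈ PL s t u,
    ∃ v ∈ ([(1, 0), (0, 1), (-1, 0), (0, -1)] : List (ℤ × ℤ)),
      cellOf 0 0 p.2.1 = cellOf 0 0 p.1 + v ∧ cellOf 0 0 p.2.2 = cellOf 0 0 p.1 + (-v.2, v.1) := by
  decide +kernel

/-- The projection of the cells of the plane to the macro-grid. -/
def proj (z : ℤ × ℤ) : ℤ × ℤ := ((6 * z.1 + z.2 + 18) / 37, (6 * z.2 - z.1 + 18) / 37)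

/-- Multiplication by `6 + i`. -/
def gam (u : ℤ × ℤ) : ℤ × ℤ := (6 * u.1 - u.2, u.1 + 6 * u.2)

theorem proj_add_gam (z u : ℤ × ℤ) : proj (z + gam u) = proj z + u := by
  obtain ⟨x, y⟩ := z
  obtain ⟨a, b⟩ := u
  unfold proj gam
  ext <;> simp only [Prod.fst_add, Prod.snd_add] <;> omega

theorem proj_rot (x y : ℤ) : proj (-y, x) = (-(proj (x, y)).2, (proj (x, y)).1) := by
  unfold proj
  ext <;> simp only <;> omega

theorem proj_zero : proj 0 = 0 := by decide

theorem proj_gam (u : ℤ × ℤ) : proj (gam u) = u := by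
  have h := proj_add_gam 0 u
  rwa [proj_zero, zero_add, zero_add] at h

theorem proj_surjective : Function.Surjective proj := fun u => ⟨gam u, proj_gam u⟩

end Pool.Agent.Lib.MP_df5726_co
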