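import Pool.Agent.Lib.MP_df5726_co.Data

/-!
# The tiling of the macro-grid by L-trominoes, and its weight functions
-/

namespace Pool.Agent.Lib.MP_df5726_co

open Finset

/-- The list of placements of a macro-cell of kind `s` (`false` is `α`, `true` is `β`) in the
state `(t, u)`. -/
def PL (s : Bool) (t u : ZMod 3) : List (ℕ × ℕ × ℕ) :=
  plData.getD (9 * (if s then 1 else 0) + 3 * t.val + u.val) []

/-- Is the cell with label `r` covered from the left in state `t`? -/
def inL (t : ZMod 3) (r : ℕ) : Bool := (leftData.getD t.val []).elem r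

/-- Is the cell with label `r` covered from below in state `u`? -/
def inB (u : ZMod 3) (r : ℕ) : Bool := (lowData.getD u.val []).elem r

/-- Increment of the horizontal state. -/
def kap (s : Bool) : ZMod 3 := if s then 0 else 1

/-- Increment of the vertical state. -/
def kap' (s : Bool) : ZMod 3 := if s then 2 else 1

/-- The weights. -/
def om (s : Bool) (r : ℕ) : ZMod 3 := (((omData.getD (if s then 1 else 0) []).getD r 0 : ℕ) : ZMod 3)

/-- `c` is one of the three codes of the placement `p`. -/
def memP (c : ℕ) (p : ℕ × ℕ × ℕ) : Prop := c = p.1 ∨ c = p.2.1 ∨ c = p.2.2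

instance (c : ℕ) (p : ℕ × ℕ × ℕ) : Decidable (memP c p) := by unfold memP; infer_instance

/-- Exactly one placement of the list contains the code `c`. -/
def One (l : List (ℕ × ℕ × ℕ)) (c : ℕ) : Prop :=
  ∃ p ∈ l, memP c p ∧ ∀ p' ∈ l, memP c p' → p' = p

instance (l : List (ℕ × ℕ × ℕ)) (c : ℕ) : Decidable (One l c) := by unfold One; infer_instance

/-- No placement of the list contains the code `c`. -/
def Non (l : List (ℕ × ℕ × ℕ)) (c : ℕ) : Prop := ∀ p ∈ l, ¬ memP c p

instance (l : List (ℕ × ℕ × ℕ)) (c : ℕ) : Decidable (Non l c) := by unfold Non; infer_instance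

theorem cov0 : ∀ (s : Bool) (t u : ZMod 3) (r : Fin 37),
    (inL t r = true ∧ inB u r = false ∧ Non (PL s t u) r) ∨
    (inL t r = false ∧ inB u r = true ∧ Non (PL s t u) r) ∨
    (inL t r = false ∧ inB u r = false ∧ One (PL s t u) r) := by
  decide +kernel

theorem cov1 : ∀ (s : Bool) (t u : ZMod 3) (r : Fin 37),
    (inL (t + kap s) r = true ∧ One (PL s t u) (37 + r)) ∨
    (inL (t + kap s) r = false ∧ Non (PL s t u) (37 + r)) := by
  decide +kernel

theorem cov2 : ∀ (s : Bool) (t u : ZMod 3) (r : Fin 37),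
    (inB (u + kap' s) r = true ∧ One (PL s t u) (74 + r)) ∨
    (inB (u + kap' s) r = false ∧ Non (PL s t u) (74 + r)) := by
  decide +kernel

/-- All codes are smaller than `111`. -/
theorem code_lt : ∀ (s : Bool) (t u : ZMod 3), ∀ p ∈ PL s t u,
    p.1 < 111 ∧ p.2.1 < 111 ∧ p.2.2 < 111 := by
  decide +kernel

/-- Contribution of a code to the row weight. -/
def rowc (s : Bool) (c : ℕ) : ZMod 3 := if c < 37 then om s c else if c < 74 then 1 else 0

/-- Contribution of a code to the column weight. -/
def colc (s : Bool) (c : ℕ) : ZMod 3 := if c < 37 then 1 - om s c else if c < 74 then 0 else 1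

theorem row_sum : ∀ (s : Bool) (t u : ZMod 3), ∀ p ∈ PL s t u,
    rowc s p.1 + (rowc s p.2.1 + rowc s p.2.2) = 0 := by
  decide +kernel

theorem col_sum : ∀ (s : Bool) (t u : ZMod 3), ∀ p ∈ PL s t u,
    colc s p.1 + (colc s p.2.1 + colc s p.2.2) = 0 := by
  decide +kernel

/-- The weights on the interfaces. -/
theorem om_interface : ∀ (s s' : Bool) (t u : ZMod 3), ∀ p ∈ PL s t u, ∀ c : Fin 111,
    memP c p → (37 ≤ (c : ℕ) → (c : ℕ) < 74 → om s' (c % 37) = 1) ∧
      (74 ≤ (c : ℕ) → om s' (c % 37) = 0) := by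
  decide +kernel

end Pool.Agent.Lib.MP_df5726_co
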