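import Mathlib

/-!
# Combinatorial data for `MP_df5726_co`

A macro-cell has `37` cells with labels `0, …, 36`. In the list of placements the code `c`
stands for the cell with label `c % 37` of the macro-cell itself (`c < 37`), of its right
neighbour (`37 ≤ c < 74`) or of its upper neighbour (`74 ≤ c < 111`). A placement
`(c₁, c₂, c₃)` is an L-tromino with middle cell `c₁`.
-/

namespace Pool.Agent.Lib.MP_df5726_co

/-- For the two kinds of macro-cells (first `α`, then `β`) and the `9` states `(t, u)` the list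
of the L-trominoes that belong to the macro-cell. -/
def plData : List (List (ℕ × ℕ × ℕ)) := [
   [(2, 8, 1), (5, 11, 4), (6, 0, 7), (9, 3, 10), (12, 13, 18), (16, 22, 15), (20, 14, 21),
    (23, 17, 61), (25, 24, 19), (26, 27, 32), (29, 35, 28), (30, 31, 36), (34, 77, 33)],
   [(0, 1, 6), (5, 11, 4), (8, 2, 9), (13, 12, 7), (16, 15, 10), (20, 19, 14), (22, 28, 21),
    (23, 17, 61), (24, 18, 25), (26, 27, 32), (30, 31, 36), (35, 34, 29), (76, 33, 77)],
   [(0, 1, 6), (5, 11, 4), (8, 14, 7), (9, 10, 15), (13, 19, 12), (16, 17, 22), (20, 21, 26),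
    (23, 61, 29), (24, 18, 25), (30, 31, 36), (33, 32, 27), (34, 28, 35)],
   [(1, 7, 0), (4, 10, 3), (8, 2, 9), (11, 5, 49), (12, 6, 13), (16, 22, 15), (19, 25, 18),
    (20, 14, 21), (23, 17, 61), (26, 27, 32), (29, 35, 28), (30, 31, 36), (34, 77, 33)],
   [(1, 7, 0), (4, 5, 10), (8, 2, 9), (11, 49, 17), (12, 6, 13), (16, 22, 15), (19, 25, 18),
    (20, 14, 21), (23, 61, 29), (26, 27, 32), (30, 31, 36), (34, 28, 35), (76, 33, 77)],
   [(1, 7, 0), (4, 5, 10), (8, 9, 14), (11, 49, 17), (12, 6, 13), (16, 22, 15), (19, 25, 18),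
    (20, 21, 26), (23, 61, 29), (30, 31, 36), (33, 32, 27), (34, 28, 35)],
   [(2, 8, 1), (5, 11, 4), (6, 0, 7), (9, 3, 10), (14, 20, 13), (17, 23, 16), (19, 25, 18),
    (21, 15, 22), (26, 27, 32), (29, 35, 28), (30, 31, 36), (34, 77, 33)],
   [(2, 8, 1), (5, 11, 4), (6, 0, 7), (9, 10, 15), (17, 23, 16), (19, 18, 13), (20, 14, 21),
    (26, 32, 25), (28, 27, 22), (30, 31, 36), (35, 34, 29), (76, 33, 77)],
   [(0, 1, 6), (5, 11, 4), (8, 14, 7), (9, 10, 15), (17, 23, 16), (19, 18, 13), (22, 28, 21),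
    (26, 25, 20), (30, 31, 36), (33, 32, 27), (35, 34, 29)],
   [(0, 1, 6), (3, 9, 2), (4, 5, 10), (13, 12, 7), (14, 8, 15), (17, 16, 11), (20, 26, 19),
    (23, 29, 22), (24, 18, 25), (27, 21, 28), (30, 31, 36), (33, 76, 32), (34, 35, 77)],
   [(0, 1, 6), (5, 11, 4), (8, 7, 2), (10, 16, 9), (13, 19, 12), (14, 15, 20), (23, 22, 17),
    (24, 18, 25), (27, 21, 28), (30, 31, 36), (32, 26, 33), (35, 34, 29)],
   [(0, 1, 6), (5, 11, 4), (8, 14, 7), (9, 10, 15), (13, 19, 12), (17, 23, 16), (21, 27, 20),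
    (24, 18, 25), (28, 22, 29), (30, 31, 36), (32, 26, 33), (34, 35, 77)],
   [(0, 1, 6), (3, 9, 2), (4, 5, 10), (13, 12, 7), (14, 8, 15), (17, 16, 11), (19, 25, 18),
    (20, 21, 26), (23, 61, 29), (28, 27, 22), (30, 31, 36), (33, 76, 32), (34, 35, 77)],
   [(0, 1, 6), (5, 11, 4), (8, 7, 2), (9, 10, 15), (14, 20, 13), (18, 12, 19), (22, 21, 16),
    (23, 17, 61), (26, 32, 25), (29, 35, 28), (30, 31, 36), (33, 27, 34)],
   [(0, 1, 6), (5, 11, 4), (10, 16, 9), (13, 12, 7), (14, 8, 15), (19, 25, 18), (21, 27, 20),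
    (23, 17, 61), (28, 22, 29), (30, 31, 36), (32, 26, 33), (34, 35, 77)],
   [(0, 1, 6), (3, 9, 2), (4, 5, 10), (8, 14, 7), (11, 49, 17), (16, 22, 15), (19, 18, 13),
    (23, 61, 29), (26, 25, 20), (27, 21, 28), (30, 31, 36), (33, 76, 32), (34, 35, 77)],
   [(0, 1, 6), (8, 7, 2), (10, 9, 4), (11, 5, 49), (14, 20, 13), (16, 22, 15), (19, 25, 18),
    (23, 17, 61), (27, 21, 28), (30, 31, 36), (32, 26, 33), (35, 34, 29)],
   [(0, 1, 6), (8, 14, 7), (10, 9, 4), (11, 5, 49), (16, 22, 15), (19, 18, 13), (21, 27, 20),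
    (23, 17, 61), (26, 32, 25), (29, 35, 28), (30, 31, 36), (34, 77, 33)]]

/-- Labels of the cells covered from the left neighbour in state `t`. -/
def leftData : List (List ℕ) := [[], [24], [12, 24]]

/-- Labels of the cells covered from the lower neighbour in state `u`. -/
def lowData : List (List ℕ) := [[], [3], [2, 3]]

/-- The weights mod `3` of the cells of the two kinds of macro-cells. -/
def omData : List (List ℕ) := [
   [1, 1, 0, 0, 1, 0, 1, 1, 2, 1, 2, 2, 1, 1, 0, 0, 1, 0, 1, 1, 2, 1, 2, 2, 1, 1, 0, 1, 0, 0,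
    2, 0, 2, 0, 0, 0, 1],
   [2, 0, 0, 0, 1, 0, 1, 1, 2, 0, 2, 2, 1, 1, 0, 1, 1, 0, 1, 1, 2, 1, 1, 2, 1, 1, 0, 0, 2, 0,
    1, 0, 2, 1, 2, 1, 2]]

end Pool.Agent.Lib.MP_df5726_co
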