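import Pool.Agent.Lib.MP_df5726_co.Weights

/-!
# Rigidity: the translates of the `37`-cell polyomino `proj z = 0` tile only in one way
-/

namespace Pool.Agent.Lib.MP_df5726_co

open Finset

/-- The translates by `C` of the set `proj z = 0` tile the plane. -/
def DT (C : Set (ℤ × ℤ)) : Prop := ∀ z, ∃! c, c ∈ C ∧ proj (z - c) = 0

theorem proj_zero_range {z : ℤ × ℤ} (h : proj z = 0) :
    z.1 ∈ Icc (-3 : ℤ) 3 ∧ z.2 ∈ Icc (-3 : ℤ) 3 := by
  obtain ⟨x, y⟩ := z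
  unfold proj at h
  simp only [Prod.mk_eq_zero] at h
  obtain ⟨h1, h2⟩ := h
  simp only [mem_Icc]
  omega

/-- The translates by `s` and `v` overlap. -/
def Ov (s v : ℤ × ℤ) : Prop :=
  ∃ x ∈ Icc (-3 : ℤ) 3, ∃ y ∈ Icc (-3 : ℤ) 3, proj (x, y) = 0 ∧ proj ((x, y) + s - v) = 0

noncomputable instance (s v : ℤ × ℤ) : Decidable (Ov s v) := by unfold Ov; infer_instance

theorem Ov.eq {C : Set (ℤ × ℤ)} (hC : DT C) {c s v : ℤ × ℤ} (hs : c + s ∈ C) (hv : c + v ∈ C)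
    (h : Ov s v) : s = v := by
  obtain ⟨x, -, y, -, h1, h2⟩ := h
  obtain ⟨w, -, hw⟩ := hC (c + s + (x, y))
  have e1 := hw (c + s) ⟨hs, by rwa [add_sub_cancel_left]⟩
  have e2 := hw (c + v) ⟨hv, by
    rw [show c + s + (x, y) - (c + v) = (x, y) + s - v by abel]; exact h2⟩
  exact add_left_cancel (e1.trans e2.symm)

theorem fin1 : ∀ a ∈ Icc (-3 : ℤ) 3, ∀ b ∈ Icc (-3 : ℤ) 3, proj (a, b) = 0 →
    ((3 - a, 1 - b) : ℤ × ℤ) = (6, 1) ∨ ((3 - a, 1 - b) : ℤ × ℤ) = (5, 4) ∨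
      Ov 0 (3 - a, 1 - b) := by
  decide +kernel

theorem fin2 : ∀ a ∈ Icc (-3 : ℤ) 3, ∀ b ∈ Icc (-3 : ℤ) 3, proj (a, b) = 0 →
    ((4 - a, -b) : ℤ × ℤ) = (7, -2) ∨ Ov 0 (4 - a, -b) ∨ Ov (5, 4) (4 - a, -b) := by
  decide +kernel

theorem fin3 : ∀ a ∈ Icc (-3 : ℤ) 3, ∀ b ∈ Icc (-3 : ℤ) 3, proj (a, b) = 0 →
    Ov 0 (6 - a, 1 - b) ∨ Ov (5, 4) (6 - a, 1 - b) ∨ Ov (7, -2) (6 - a, 1 - b) := by
  decide +kernel

theorem DT.cover {C : Set (ℤ × ℤ)} (hC : DT C) (c s : ℤ × ℤ) :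
    ∃ a ∈ Icc (-3 : ℤ) 3, ∃ b ∈ Icc (-3 : ℤ) 3, proj (a, b) = 0 ∧
      c + (s.1 - a, s.2 - b) ∈ C := by
  obtain ⟨v, ⟨hv, hp⟩, -⟩ := hC (c + s)
  have hr := proj_zero_range hp
  refine ⟨(c + s - v).1, hr.1, (c + s - v).2, hr.2, hp, ?_⟩
  convert hv using 1
  ext
  · simp only [Prod.fst_add, Prod.fst_sub]; ring
  · simp only [Prod.snd_add, Prod.snd_sub]; ring

theorem DT.step {C : Set (ℤ × ℤ)} (hC : DT C) {c : ℤ × ℤ} (hc : c ∈ C) : c + (6, 1) ∈ C := by
  have hc0 : c + 0 ∈ C := by rwa [add_zero]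
  obtain ⟨a, ha, b, hb, h1, h2⟩ := hC.cover c (3, 1)
  simp only at h2
  rcases fin1 a ha b hb h1 with h | h | h
  · rwa [h] at h2
  · rw [h] at h2
    exfalso
    obtain ⟨a', ha', b', hb', h1', h2'⟩ := hC.cover c (4, 0)
    simp only [zero_sub] at h2'
    rcases fin2 a' ha' b' hb' h1' with h' | h' | h'
    · rw [h'] at h2'
      obtain ⟨a'', ha'', b'', hb'', h1'', h2''⟩ := hC.cover c (6, 1)
      simp only at h2''
      rcases fin3 a'' ha'' b'' hb'' h1'' with h'' | h'' | h''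
      · have e := h''.eq hC hc0 h2''
        have e1 := congrArg Prod.fst e
        have e2 := congrArg Prod.snd e
        simp only [Prod.fst_zero, Prod.snd_zero] at e1 e2
        rw [show a'' = 6 by omega, show b'' = 1 by omega] at h1''
        revert h1''; decide
      · have e := h''.eq hC h2 h2''
        have e1 := congrArg Prod.fst e
        have e2 := congrArg Prod.snd e
        simp only at e1 e2
        rw [show a'' = 1 by omega, show b'' = -3 by omega] at h1''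
        revert h1''; decide
      · have e := h''.eq hC h2' h2''
        have e1 := congrArg Prod.fst e
        have e2 := congrArg Prod.snd e
        simp only at e1 e2
        rw [show a'' = -1 by omega, show b'' = 3 by omega] at h1''
        revert h1''; decide
    · have e := h'.eq hC hc0 h2'
      have e1 := congrArg Prod.fst e
      have e2 := congrArg Prod.snd e
      simp only [Prod.fst_zero, Prod.snd_zero] at e1 e2
      rw [show a' = 4 by omega, show b' = 0 by omega] at h1'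
      revert h1'; decide
    · have e := h'.eq hC h2 h2'
      have e1 := congrArg Prod.fst e
      have e2 := congrArg Prod.snd e
      simp only at e1 e2
      rw [show a' = -1 by omega, show b' = -4 by omega] at h1'
      revert h1'; decide
  · exfalso
    have e := h.eq hC hc0 h2
    have e1 := congrArg Prod.fst e
    have e2 := congrArg Prod.snd e
    simp only [Prod.fst_zero, Prod.snd_zero] at e1 e2
    rw [show a = 3 by omega, show b = 1 by omega] at h1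
    revert h1; decide

theorem DT.rot {C : Set (ℤ × ℤ)} (hC : DT C) : DT {z | ((-z.2, z.1) : ℤ × ℤ) ∈ C} := by
  have key : ∀ z c : ℤ × ℤ, proj (z - c) = 0 ↔ proj ((-z.2, z.1) - (-c.2, c.1)) = 0 := by
    intro z c
    have e : ((-z.2, z.1) - (-c.2, c.1) : ℤ × ℤ) = (-(z - c).2, (z - c).1) := by
      ext
      · simp only [Prod.fst_sub, Prod.snd_sub]; ring
      · simp only [Prod.fst_sub, Prod.snd_sub]
    rw [e, proj_rot]
    obtain ⟨x, y⟩ := z - c
    simp only [Prod.ext_iff, Prod.fst_zero, Prod.snd_zero]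
    constructor
    · rintro ⟨h1, h2⟩
      exact ⟨by omega, h1⟩
    · rintro ⟨h1, h2⟩
      exact ⟨h2, by omega⟩
  intro z
  obtain ⟨c, ⟨h1, h2⟩, h3⟩ := hC (-z.2, z.1)
  have hcc : ((-(-c.1 : ℤ), c.2) : ℤ × ℤ) = c := by ext <;> simp
  refine ⟨(c.2, -c.1), ⟨?_, ?_⟩, ?_⟩
  · change ((-(-c.1 : ℤ), c.2) : ℤ × ℤ) ∈ C
    rwa [hcc]
  · rw [key]
    simp only
    rwa [hcc]
  · rintro ⟨x, y⟩ ⟨h4, h5⟩
    have h6 : ((-y, x) : ℤ × ℤ) = c := h3 (-y, x) ⟨h4, (key z (x, y)).1 h5⟩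
    rw [← h6]
    simp

theorem DT.step2 {C : Set (ℤ × ℤ)} (hC : DT C) {c : ℤ × ℤ} (hc : c ∈ C) : c + (-1, 6) ∈ C := by
  have h := hC.rot.step (c := (c.2, -c.1)) (by
    change ((-(-c.1 : ℤ), c.2) : ℤ × ℤ) ∈ C
    rwa [show ((-(-c.1 : ℤ), c.2) : ℤ × ℤ) = c by ext <;> simp])
  change ((-((c.2, -c.1) + (6, 1) : ℤ × ℤ).2, ((c.2, -c.1) + (6, 1) : ℤ × ℤ).1) : ℤ × ℤ) ∈ C at h
  convert h using 1
  ext
  · simp only [Prod.fst_add, Prod.snd_add]; ring
  · simp only [Prod.fst_add, Prod.snd_add]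

theorem DT.step3 {C : Set (ℤ × ℤ)} (hC : DT C) {c : ℤ × ℤ} (hc : c ∈ C) : c + (-6, -1) ∈ C := by
  have h := hC.rot.step2 (c := (c.2, -c.1)) (by
    change ((-(-c.1 : ℤ), c.2) : ℤ × ℤ) ∈ C
    rwa [show ((-(-c.1 : ℤ), c.2) : ℤ × ℤ) = c by ext <;> simp])
  change ((-((c.2, -c.1) + (-1, 6) : ℤ × ℤ).2, ((c.2, -c.1) + (-1, 6) : ℤ × ℤ).1) : ℤ × ℤ) ∈ C at h
  convert h using 1
  ext
  · simp only [Prod.fst_add, Prod.snd_add]; ring
  · simp only [Prod.fst_add, Prod.snd_add]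

theorem DT.step4 {C : Set (ℤ × ℤ)} (hC : DT C) {c : ℤ × ℤ} (hc : c ∈ C) : c + (1, -6) ∈ C := by
  have h := hC.rot.step3 (c := (c.2, -c.1)) (by
    change ((-(-c.1 : ℤ), c.2) : ℤ × ℤ) ∈ C
    rwa [show ((-(-c.1 : ℤ), c.2) : ℤ × ℤ) = c by ext <;> simp])
  change ((-((c.2, -c.1) + (-6, -1) : ℤ × ℤ).2, ((c.2, -c.1) + (-6, -1) : ℤ × ℤ).1) : ℤ × ℤ) ∈ C
    at h
  convert h using 1
  ext
  · simp only [Prod.fst_add, Prod.snd_add]; ring
  · simp only [Prod.fst_add, Prod.snd_add]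

theorem DT.add_gam {C : Set (ℤ × ℤ)} (hC : DT C) {c : ℤ × ℤ} (hc : c ∈ C) (u : ℤ × ℤ) :
    c + gam u ∈ C := by
  have h1 : ∀ a : ℤ, c + (6 * a, a) ∈ C := by
    intro a
    induction a using Int.induction_on with
    | zero =>
      have : c + (6 * 0, 0) = c := by ext <;> simp
      rwa [this]
    | succ i ih =>
      convert hC.step ih using 1
      ext <;> simp <;> ring
    | pred i ih =>
      convert hC.step3 ih using 1
      ext <;> simp <;> ring
  have h2 : ∀ b : ℤ, c + (6 * u.1, u.1) + (-b, 6 * b) ∈ C := by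
    intro b
    induction b using Int.induction_on with
    | zero =>
      have : c + (6 * u.1, u.1) + (-0, 6 * 0) = c + (6 * u.1, u.1) := by ext <;> simp
      rw [this]
      exact h1 u.1
    | succ i ih =>
      convert hC.step2 ih using 1
      ext <;> simp <;> ring
    | pred i ih =>
      convert hC.step4 ih using 1
      ext <;> simp <;> ring
  convert h2 u.2 using 1
  unfold gam
  ext <;> simp <;> ring

theorem DT.sub_mem {C : Set (ℤ × ℤ)} (hC : DT C) {c c' : ℤ × ℤ} (hc : c ∈ C) (hc' : c' ∈ C) :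
    ∃ u, c' = c + gam u := by
  refine ⟨proj (c' - c), ?_⟩
  have h1 := hC.add_gam hc (proj (c' - c))
  obtain ⟨w, -, hw⟩ := hC c'
  have e1 := hw c' ⟨hc', by rw [sub_self]; exact proj_zero⟩
  have e2 := hw (c + gam (proj (c' - c))) ⟨h1, by
    have h := proj_add_gam (c' - (c + gam (proj (c' - c)))) (proj (c' - c))
    rw [show c' - (c + gam (proj (c' - c))) + gam (proj (c' - c)) = c' - c by abel] at h
    exact (left_eq_add.mp (h.trans (add_comm _ _)))⟩
  exact e1.trans e2.symm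

end Pool.Agent.Lib.MP_df5726_co
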