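import Pool.Agent.Lib.MP_df5726_co.Coord

/-!
# The tiling of the macro-grid by L-trominoes
-/

namespace Pool.Agent.Lib.MP_df5726_co

open Finset

/-- The positions of the macro-cells of kind `β`. -/
def IsBeta (i j : ℤ) : Prop :=
  ∃ l : ℕ, i ≡ 3 ^ l [ZMOD 3 ^ (l + 1)] ∧ j ≡ 3 ^ l [ZMOD 3 ^ (l + 1)]

open Classical in
/-- The kind of the macro-cell `(i, j)`. -/
noncomputable def kind (i j : ℤ) : Bool := decide (IsBeta i j)

theorem exists_rec (f : ℤ → ZMod 3) : ∃ t : ℤ → ZMod 3, ∀ i, t (i + 1) = t i + f i := by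
  refine ⟨fun i => if 0 ≤ i then ∑ k ∈ range i.toNat, f k
    else - ∑ k ∈ range (-i).toNat, f (-(k : ℤ) - 1), fun i => ?_⟩
  rcases lt_trichotomy i (-1) with h | h | h
  · have h1 : ¬ (0 ≤ i + 1) := by omega
    have h2 : ¬ (0 ≤ i) := by omega
    simp only [h1, h2, if_false]
    have h3 : (-i).toNat = (-(i + 1)).toNat + 1 := by omega
    rw [h3, sum_range_succ]
    have h4 : (-(((-(i + 1)).toNat : ℕ) : ℤ) - 1) = i := by omega
    rw [h4]; ring
  · subst h
    simp
  · have h1 : 0 ≤ i + 1 := by omega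
    have h2 : 0 ≤ i := by omega
    simp only [h1, h2, if_true]
    have h3 : (i + 1).toNat = i.toNat + 1 := by omega
    rw [h3, sum_range_succ]
    have h4 : ((i.toNat : ℕ) : ℤ) = i := by omega
    rw [h4]

/-- The horizontal state of the macro-cell `(i, j)`. -/
noncomputable def tt (i j : ℤ) : ZMod 3 := (exists_rec (fun i => kap (kind i j))).choose i

/-- The vertical state of the macro-cell `(i, j)`. -/
noncomputable def uu (i j : ℤ) : ZMod 3 := (exists_rec (fun j => kap' (kind i j))).choose j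

theorem tt_succ (i j : ℤ) : tt (i + 1) j = tt i j + kap (kind i j) :=
  (exists_rec (fun i => kap (kind i j))).choose_spec i

theorem uu_succ (i j : ℤ) : uu i (j + 1) = uu i j + kap' (kind i j) :=
  (exists_rec (fun j => kap' (kind i j))).choose_spec j

/-- The placements of the macro-cell `(i, j)`. -/
noncomputable def pls (i j : ℤ) : List (ℕ × ℕ × ℕ) := PL (kind i j) (tt i j) (uu i j)

/-- The tiling of the macro-grid. -/
def TQ : Set (Finset (ℤ × ℤ)) := {τ | ∃ i j, ∃ p ∈ pls i j, τ = tile i j p}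

theorem memP_lt {i j : ℤ} {p : ℕ × ℕ × ℕ} (hp : p ∈ pls i j) {c : ℕ} (hc : memP c p) :
    c < 111 := by
  have := code_lt _ _ _ p hp
  rcases hc with rfl | rfl | rfl
  · exact this.1
  · exact this.2.1
  · exact this.2.2

theorem mem_tile_iff {i j : ℤ} {p : ℕ × ℕ × ℕ} (hp : p ∈ pls i j) {a b : ℤ} {r : ℕ}
    (hr : r < 37) : enc a b r ∈ tile i j p ↔
      (i = a ∧ j = b ∧ memP r p) ∨ (i = a - 1 ∧ j = b ∧ memP (37 + r) p) ∨
        (i = a ∧ j = b - 1 ∧ memP (74 + r) p) := by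
  rw [mem_tile]
  constructor
  · rintro ⟨c, hc, h⟩
    have hc' := memP_lt hp hc
    unfold cellOf at h
    obtain ⟨h1, h2, h3⟩ := enc_inj hr (Nat.mod_lt _ (by norm_num)) h
    unfold dx at h1
    unfold dy at h2
    by_cases c1 : c < 37
    · left
      have c2 : c < 74 := by omega
      simp only [c1, c2, if_true] at h1 h2
      have : r = c := by omega
      subst this
      exact ⟨by omega, by omega, hc⟩
    · by_cases c2 : c < 74
      · right; left
        simp only [c1, c2, if_true, if_false] at h1 h2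
        have : c = 37 + r := by omega
        subst this
        exact ⟨by omega, by omega, hc⟩
      · right; right
        simp only [c1, c2, if_false] at h1 h2
        have : c = 74 + r := by omega
        subst this
        exact ⟨by omega, by omega, hc⟩
  · rintro (⟨rfl, rfl, h⟩ | ⟨rfl, rfl, h⟩ | ⟨rfl, rfl, h⟩)
    · refine ⟨r, h, ?_⟩
      unfold cellOf dx dy
      have c2 : r < 74 := by omega
      simp only [hr, c2, if_true, add_zero, Nat.mod_eq_of_lt hr]
    · refine ⟨37 + r, h, ?_⟩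
      unfold cellOf dx dy
      have c1 : ¬ (37 + r < 37) := by omega
      have c2 : 37 + r < 74 := by omega
      have c3 : (37 + r) % 37 = r := by omega
      simp only [c1, c2, if_true, if_false, c3, add_zero, sub_add_cancel]
    · refine ⟨74 + r, h, ?_⟩
      unfold cellOf dx dy
      have c1 : ¬ (74 + r < 37) := by omega
      have c2 : ¬ (74 + r < 74) := by omega
      have c3 : (74 + r) % 37 = r := by omega
      simp only [c1, c2, if_false, c3, add_zero, sub_add_cancel]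

theorem TQ_tiling (z : ℤ × ℤ) : ∃ τ ∈ TQ, z ∈ τ ∧ ∀ τ' ∈ TQ, z ∈ τ' → τ' = τ := by
  obtain ⟨a, b, r, hr, rfl⟩ : ∃ a b r, r < 37 ∧ z = enc a b r :=
    ⟨decI z, decJ z, decR z, decR_lt z, (enc_dec z).symm⟩
  have ht : tt a b = tt (a - 1) b + kap (kind (a - 1) b) := by
    have := tt_succ (a - 1) b
    rwa [sub_add_cancel] at this
  have hu : uu a b = uu a (b - 1) + kap' (kind a (b - 1)) := by
    have := uu_succ a (b - 1)
    rwa [sub_add_cancel] at this
  have H0 := cov0 (kind a b) (tt a b) (uu a b) ⟨r, hr⟩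
  have H1 := cov1 (kind (a - 1) b) (tt (a - 1) b) (uu (a - 1) b) ⟨r, hr⟩
  have H2 := cov2 (kind a (b - 1)) (tt a (b - 1)) (uu a (b - 1)) ⟨r, hr⟩
  rw [← ht] at H1
  rw [← hu] at H2
  simp only at H0 H1 H2
  rcases H0 with ⟨h1, h2, h3⟩ | ⟨h1, h2, h3⟩ | ⟨h1, h2, h3⟩
  · rw [h1] at H1
    rw [h2] at H2
    simp only [true_and, false_and, or_false, false_or, reduceCtorEq] at H1 H2
    obtain ⟨p, hp, hpm, hpu⟩ := H1
    refine ⟨tile (a - 1) b p, ⟨_, _, p, hp, rfl⟩, (mem_tile_iff hp hr).2 (Or.inr (Or.inl ⟨rfl, rfl, hpm⟩)), ?_⟩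
    rintro τ' ⟨i, j, p', hp', rfl⟩ hz
    rcases (mem_tile_iff hp' hr).1 hz with ⟨rfl, rfl, h⟩ | ⟨rfl, rfl, h⟩ | ⟨rfl, rfl, h⟩
    · exact absurd h (h3 p' hp')
    · rw [hpu p' hp' h]
    · exact absurd h (H2 p' hp')
  · rw [h1] at H1
    rw [h2] at H2
    simp only [true_and, false_and, or_false, false_or, reduceCtorEq] at H1 H2
    obtain ⟨p, hp, hpm, hpu⟩ := H2
    refine ⟨tile a (b - 1) p, ⟨_, _, p, hp, rfl⟩, (mem_tile_iff hp hr).2 (Or.inr (Or.inr ⟨rfl, rfl, hpm⟩)), ?_⟩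
    rintro τ' ⟨i, j, p', hp', rfl⟩ hz
    rcases (mem_tile_iff hp' hr).1 hz with ⟨rfl, rfl, h⟩ | ⟨rfl, rfl, h⟩ | ⟨rfl, rfl, h⟩
    · exact absurd h (h3 p' hp')
    · exact absurd h (H1 p' hp')
    · rw [hpu p' hp' h]
  · rw [h1] at H1
    rw [h2] at H2
    simp only [true_and, false_and, false_or, reduceCtorEq] at H1 H2
    obtain ⟨p, hp, hpm, hpu⟩ := h3
    refine ⟨tile a b p, ⟨_, _, p, hp, rfl⟩, (mem_tile_iff hp hr).2 (Or.inl ⟨rfl, rfl, hpm⟩), ?_⟩
    rintro τ' ⟨i, j, p', hp', rfl⟩ hz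
    rcases (mem_tile_iff hp' hr).1 hz with ⟨rfl, rfl, h⟩ | ⟨rfl, rfl, h⟩ | ⟨rfl, rfl, h⟩
    · rw [hpu p' hp' h]
    · exact absurd h (H1 p' hp')
    · exact absurd h (H2 p' hp')

end Pool.Agent.Lib.MP_df5726_co
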