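import Pool.Agent.Lib.MP_df5726_co.Tiling

/-!
# Weight functions and the combinatorial core
-/

namespace Pool.Agent.Lib.MP_df5726_co

open Finset

/-- The vector of the macro-grid corresponding to a shift of the macro-cells by `l`. -/
def shf (l : ℤ × ℤ) : ℤ × ℤ := (6 * l.1 + l.2, -l.1 + 6 * l.2)

theorem enc_add' (i j : ℤ) (r : ℕ) (l : ℤ × ℤ) :
    enc (i + l.1) (j + l.2) r = enc i j r + shf l := enc_add i j l.1 l.2 r

/-- `U` is a fundamental domain for the shifts by multiples of `p` and `q` of the macro-cells. -/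
def FD (p q : ℕ) (U : Finset (ℤ × ℤ)) : Prop :=
  ∀ v, ∃! l : ℤ × ℤ, (p : ℤ) ∣ l.1 ∧ (q : ℤ) ∣ l.2 ∧ v - shf l ∈ U

theorem shf_zero : shf (0, 0) = 0 := by decide

theorem sum_FD {p q : ℕ} (hp : 0 < p) (hq : 0 < q) {U : Finset (ℤ × ℤ)} (hU : FD p q U)
    (W : ℤ × ℤ → ZMod 3)
    (hW : ∀ z, ∀ l : ℤ × ℤ, (p : ℤ) ∣ l.1 → (q : ℤ) ∣ l.2 → W (z + shf l) = W z) (a b : ℤ) :
    ∑ x ∈ U, W x = ∑ i ∈ Ico a (a + p), ∑ j ∈ Ico b (b + q), ∑ r ∈ range 37, W (enc i j r) := by
  have hp' : (0 : ℤ) < p := by exact_mod_cast hp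
  have hq' : (0 : ℤ) < q := by exact_mod_cast hq
  have e1 : ∑ i ∈ Ico a (a + p), ∑ j ∈ Ico b (b + q), ∑ r ∈ range 37, W (enc i j r) =
      ∑ k ∈ (Ico a (a + p)) ×ˢ ((Ico b (b + q)) ×ˢ (range 37)), W (enc k.1 k.2.1 k.2.2) := by
    rw [sum_product]
    refine sum_congr rfl fun i _ => ?_
    rw [sum_product]
  rw [e1]
  have key : ∀ x : ℤ × ℤ, ∃ l : ℤ × ℤ, (p : ℤ) ∣ l.1 ∧ (q : ℤ) ∣ l.2 ∧
      enc (a + (decI x - a) % p) (b + (decJ x - b) % q) (decR x) = x + shf l := by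
    intro x
    refine ⟨(-((p : ℤ) * ((decI x - a) / p)), -((q : ℤ) * ((decJ x - b) / q))),
      (dvd_mul_right _ _).neg_right, (dvd_mul_right _ _).neg_right, ?_⟩
    have h0 := enc_add' (decI x) (decJ x) (decR x)
      (-((p : ℤ) * ((decI x - a) / p)), -((q : ℤ) * ((decJ x - b) / q)))
    rw [enc_dec] at h0
    rw [← h0]
    congr 1
    · have := Int.emod_add_mul_ediv (decI x - a) p
      simp only
      linarith
    · have := Int.emod_add_mul_ediv (decJ x - b) q
      simp only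
      linarith
  refine sum_bij (fun x _ => (a + (decI x - a) % p, b + (decJ x - b) % q, decR x)) ?_ ?_ ?_ ?_
  · intro x _
    simp only [mem_product, mem_Ico, mem_range]
    have h1 := Int.emod_nonneg (decI x - a) hp'.ne'
    have h2 := Int.emod_lt_of_pos (decI x - a) hp'
    have h3 := Int.emod_nonneg (decJ x - b) hq'.ne'
    have h4 := Int.emod_lt_of_pos (decJ x - b) hq'
    exact ⟨⟨by omega, by omega⟩, ⟨by omega, by omega⟩, decR_lt x⟩
  · intro x hx y hy h
    simp only [Prod.mk.injEq] at h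
    obtain ⟨h1, h2, h3⟩ := h
    obtain ⟨l, hl1, hl2, hl3⟩ := key x
    obtain ⟨m, hm1, hm2, hm3⟩ := key y
    rw [h1, h2, h3] at hl3
    have hxy : x + shf l = y + shf m := hl3.symm.trans hm3
    obtain ⟨n, -, hn⟩ := hU (x + shf l)
    have e1 := hn l ⟨hl1, hl2, by rwa [add_sub_cancel_right]⟩
    have e2 := hn m ⟨hm1, hm2, by rwa [hxy, add_sub_cancel_right]⟩
    rw [e1, e2] at hxy
    exact add_right_cancel hxy
  · rintro ⟨i, j, r⟩ h
    simp only [mem_product, mem_Ico, mem_range] at h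
    obtain ⟨⟨h1, h2⟩, ⟨h3, h4⟩, h5⟩ := h
    obtain ⟨l, ⟨hl1, hl2, hl3⟩, -⟩ := hU (enc i j r)
    refine ⟨_, hl3, ?_⟩
    have e : enc i j r - shf l = enc (i - l.1) (j - l.2) r := by
      rw [sub_eq_iff_eq_add, ← enc_add', sub_add_cancel, sub_add_cancel]
    rw [e, decI_enc _ _ _ h5, decJ_enc _ _ _ h5, decR_enc _ _ _ h5]
    obtain ⟨c, hc⟩ := hl1
    obtain ⟨d, hd⟩ := hl2
    have f1 : (i - l.1 - a) % p = i - a := by
      have : i - l.1 - a = (i - a) + p * (-c) := by rw [hc]; ring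
      rw [this, Int.add_mul_emod_self_left]
      exact Int.emod_eq_of_lt (by omega) (by omega)
    have f2 : (j - l.2 - b) % q = j - b := by
      have : j - l.2 - b = (j - b) + q * (-d) := by rw [hd]; ring
      rw [this, Int.add_mul_emod_self_left]
      exact Int.emod_eq_of_lt (by omega) (by omega)
    rw [f1, f2]
    ext <;> simp
  · intro x _
    obtain ⟨l, hl1, hl2, hl3⟩ := key x
    simp only
    rw [hl3, hW x l hl1 hl2]

/-- The sum over a tile. -/
theorem sum_tile {i j : ℤ} {p : ℕ × ℕ × ℕ} (hp : p ∈ pls i j) (W : ℤ × ℤ → ZMod 3) :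
    ∑ x ∈ tile i j p, W x =
      W (cellOf i j p.1) + (W (cellOf i j p.2.1) + W (cellOf i j p.2.2)) := by
  obtain ⟨v, hv, h1, h2⟩ := shape _ _ _ p hp
  have e1 : cellOf i j p.2.1 = cellOf i j p.1 + v := by
    rw [cellOf_eq i j p.2.1, h1, cellOf_eq i j p.1]; abel
  have e2 : cellOf i j p.2.2 = cellOf i j p.1 + (-v.2, v.1) := by
    rw [cellOf_eq i j p.2.2, h2, cellOf_eq i j p.1]; abel
  unfold tile
  rw [e1, e2]
  obtain ⟨x, y⟩ := cellOf i j p.1
  have n1 : ((x, y) : ℤ × ℤ) ≠ (x, y) + v := by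
    intro h
    have : v = 0 := by simpa using h.symm
    subst this
    revert hv; decide
  have n2 : ((x, y) : ℤ × ℤ) ≠ (x, y) + (-v.2, v.1) := by
    intro h
    have : ((-v.2, v.1) : ℤ × ℤ) = 0 := by simpa using h.symm
    have h3 : v = 0 := by
      have a1 := congrArg Prod.fst this
      have a2 := congrArg Prod.snd this
      simp at a1 a2
      ext <;> simp [a1, a2]
    subst h3
    revert hv; decide
  have n3 : ((x, y) : ℤ × ℤ) + v ≠ (x, y) + (-v.2, v.1) := by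
    intro h
    have h3 : v = (-v.2, v.1) := add_left_cancel h
    have a1 := congrArg Prod.fst h3
    have a2 := congrArg Prod.snd h3
    simp only at a1 a2
    have h4 : v = 0 := by ext <;> simp <;> omega
    subst h4
    revert hv; decide
  rw [sum_insert (by simp only [mem_insert, mem_singleton, not_or]; exact ⟨n1, n2⟩),
    sum_insert (by simpa only [mem_singleton] using n3), sum_singleton]

theorem total_zero (S : Finset (Finset (ℤ × ℤ))) (hS : ∀ τ ∈ S, τ ∈ TQ) (W : ℤ × ℤ → ZMod 3)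
    (hW : ∀ i j, ∀ p ∈ pls i j,
      W (cellOf i j p.1) + (W (cellOf i j p.2.1) + W (cellOf i j p.2.2)) = 0) :
    ∑ x ∈ S.biUnion id, W x = 0 := by
  rw [sum_biUnion]
  · refine sum_eq_zero fun τ hτ => ?_
    obtain ⟨i, j, p, hp, rfl⟩ := hS τ hτ
    simp only [id]
    rw [sum_tile hp, hW i j p hp]
  · intro τ hτ τ' hτ' hne
    simp only [Function.onFun, id]
    rw [Finset.disjoint_left]
    intro z hz hz'
    obtain ⟨σ, -, -, hσ⟩ := TQ_tiling z
    exact hne ((hσ τ (hS τ hτ) hz).trans (hσ τ' (hS τ' hτ') hz').symm)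

/-- Row weight. -/
noncomputable def rowW (q : ℕ) (b : ℤ) (z : ℤ × ℤ) : ZMod 3 :=
  if (q : ℤ) ∣ decJ z - b then om (kind (decI z) (decJ z)) (decR z) else 0

/-- Column weight. -/
noncomputable def colW (p : ℕ) (a : ℤ) (z : ℤ × ℤ) : ZMod 3 :=
  if (p : ℤ) ∣ decI z - a then 1 - om (kind (decI z) (decJ z)) (decR z) else 0

theorem decI_cellOf (i j : ℤ) (c : ℕ) : decI (cellOf i j c) = i + dx c :=
  decI_enc _ _ _ (Nat.mod_lt _ (by norm_num))

theorem decJ_cellOf (i j : ℤ) (c : ℕ) : decJ (cellOf i j c) = j + dy c :=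
  decJ_enc _ _ _ (Nat.mod_lt _ (by norm_num))

theorem decR_cellOf (i j : ℤ) (c : ℕ) : decR (cellOf i j c) = c % 37 :=
  decR_enc _ _ _ (Nat.mod_lt _ (by norm_num))

theorem rowW_cell (q : ℕ) (b : ℤ) {i j : ℤ} {p : ℕ × ℕ × ℕ} (hp : p ∈ pls i j) {c : ℕ}
    (hc : memP c p) :
    rowW q b (cellOf i j c) = if (q : ℤ) ∣ j - b then rowc (kind i j) c else 0 := by
  unfold rowW
  rw [decI_cellOf, decJ_cellOf, decR_cellOf]
  have hc' := memP_lt hp hc
  have H := fun s' => om_interface _ s' _ _ p hp ⟨c, hc'⟩ hc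
  simp only at H
  unfold dx dy rowc
  by_cases c1 : c < 37
  · have c2 : c < 74 := by omega
    simp only [c1, c2, if_true, add_zero, Nat.mod_eq_of_lt c1]
  · by_cases c2 : c < 74
    · simp only [c1, c2, if_true, if_false, add_zero]
      rw [(H _).1 (by omega) c2]
    · simp only [c1, c2, if_false, add_zero]
      rw [(H _).2 (by omega)]
      simp

theorem colW_cell (p' : ℕ) (a : ℤ) {i j : ℤ} {p : ℕ × ℕ × ℕ} (hp : p ∈ pls i j) {c : ℕ}
    (hc : memP c p) :
    colW p' a (cellOf i j c) = if (p' : ℤ) ∣ i - a then colc (kind i j) c else 0 := by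
  unfold colW
  rw [decI_cellOf, decJ_cellOf, decR_cellOf]
  have hc' := memP_lt hp hc
  have H := fun s' => om_interface _ s' _ _ p hp ⟨c, hc'⟩ hc
  simp only at H
  unfold dx dy colc
  by_cases c1 : c < 37
  · have c2 : c < 74 := by omega
    simp only [c1, c2, if_true, add_zero, Nat.mod_eq_of_lt c1]
  · by_cases c2 : c < 74
    · simp only [c1, c2, if_true, if_false, add_zero]
      rw [(H _).1 (by omega) c2]
      simp
    · simp only [c1, c2, if_false, add_zero]
      rw [(H _).2 (by omega)]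
      simp

/-- Sum of the weights of a macro-cell. -/
theorem sum_om : ∀ s : Bool, ∑ r ∈ range 37, om s r = if s then 0 else 2 := by decide +kernel

theorem sum_om' : ∀ s : Bool, ∑ r ∈ range 37, (1 - om s r) = if s then 1 else 2 := by
  decide +kernel

theorem decI_add (z l : ℤ × ℤ) : decI (z + shf l) = decI z + l.1 := by
  conv_lhs => rw [← enc_dec z, ← enc_add']
  exact decI_enc _ _ _ (decR_lt z)

theorem decJ_add (z l : ℤ × ℤ) : decJ (z + shf l) = decJ z + l.2 := by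
  conv_lhs => rw [← enc_dec z, ← enc_add']
  exact decJ_enc _ _ _ (decR_lt z)

theorem decR_add (z l : ℤ × ℤ) : decR (z + shf l) = decR z := by
  conv_lhs => rw [← enc_dec z, ← enc_add']
  exact decR_enc _ _ _ (decR_lt z)

section core

variable {p q : ℕ} (hp : 0 < p) (hq : 0 < q) {S : Finset (Finset (ℤ × ℤ))}
  (hS : ∀ τ ∈ S, τ ∈ TQ) (hU : FD p q (S.biUnion id))

include hp hq hS hU

theorem const_total : ((p * q : ℕ) : ZMod 3) = 0 := by
  have h1 := sum_FD hp hq hU (fun _ => (1 : ZMod 3)) (fun _ _ _ _ => rfl) 0 0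
  rw [total_zero S hS (fun _ => (1 : ZMod 3)) (fun _ _ _ _ => by decide)] at h1
  simp only [sum_const, card_range, Int.card_Ico, zero_add, sub_zero, Int.toNat_natCast,
    nsmul_eq_mul, mul_one] at h1
  have h2 : ((37 : ℕ) : ZMod 3) = 1 := by decide
  rw [h2, mul_one] at h1
  push_cast
  exact h1.symm

theorem row_total (b : ℤ)
    (hper : ∀ i j : ℤ, ∀ l : ℤ × ℤ, (q : ℤ) ∣ j - b → (p : ℤ) ∣ l.1 → (q : ℤ) ∣ l.2 →
      kind (i + l.1) (j + l.2) = kind i j) (a : ℤ) :
    ∑ i ∈ Ico a (a + p), (if kind i b then (0 : ZMod 3) else 2) = 0 := by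
  have hq' : (0 : ℤ) < q := by exact_mod_cast hq
  have h1 := sum_FD hp hq hU (rowW q b) (fun z l hl1 hl2 => by
    unfold rowW
    rw [decI_add, decJ_add, decR_add]
    have e : (q : ℤ) ∣ decJ z + l.2 - b ↔ (q : ℤ) ∣ decJ z - b := by
      rw [show decJ z + l.2 - b = (decJ z - b) + l.2 by ring]
      exact (dvd_add_left hl2)
    by_cases h : (q : ℤ) ∣ decJ z - b
    · rw [if_pos h, if_pos (e.2 h), hper _ _ l h hl1 hl2]
    · rw [if_neg h, if_neg (fun h' => h (e.1 h'))]) a b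
  rw [total_zero S hS (rowW q b) (fun i j pl hpl => by
    rw [rowW_cell q b hpl (Or.inl rfl), rowW_cell q b hpl (Or.inr (Or.inl rfl)),
      rowW_cell q b hpl (Or.inr (Or.inr rfl))]
    by_cases h : (q : ℤ) ∣ j - b
    · simp only [h, if_true]
      exact row_sum _ _ _ pl hpl
    · simp only [h, if_false, add_zero])] at h1
  refine Eq.trans ?_ h1.symm
  refine sum_congr rfl fun i _ => ?_
  rw [sum_eq_single b]
  · rw [← sum_om (kind i b)]
    refine sum_congr rfl fun r hr => ?_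
    have hr' := mem_range.1 hr
    unfold rowW
    rw [decI_enc _ _ _ hr', decJ_enc _ _ _ hr', decR_enc _ _ _ hr']
    simp
  · intro j hj hne
    refine sum_eq_zero fun r hr => ?_
    have hr' := mem_range.1 hr
    rw [mem_Ico] at hj
    unfold rowW
    rw [decI_enc _ _ _ hr', decJ_enc _ _ _ hr', decR_enc _ _ _ hr']
    rw [if_neg]
    intro h
    have := Int.le_of_dvd (by omega) h
    omega
  · intro h
    exact absurd (mem_Ico.2 ⟨le_rfl, by omega⟩) h

theorem col_total (a : ℤ)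
    (hper : ∀ i j : ℤ, ∀ l : ℤ × ℤ, (p : ℤ) ∣ i - a → (p : ℤ) ∣ l.1 → (q : ℤ) ∣ l.2 →
      kind (i + l.1) (j + l.2) = kind i j) (b : ℤ) :
    ∑ j ∈ Ico b (b + q), (if kind a j then (1 : ZMod 3) else 2) = 0 := by
  have hp' : (0 : ℤ) < p := by exact_mod_cast hp
  have h1 := sum_FD hp hq hU (colW p a) (fun z l hl1 hl2 => by
    unfold colW
    rw [decI_add, decJ_add, decR_add]
    have e : (p : ℤ) ∣ decI z + l.1 - a ↔ (p : ℤ) ∣ decI z - a := by
      rw [show decI z + l.1 - a = (decI z - a) + l.1 by ring]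
      exact (dvd_add_left hl1)
    by_cases h : (p : ℤ) ∣ decI z - a
    · rw [if_pos h, if_pos (e.2 h), hper _ _ l h hl1 hl2]
    · rw [if_neg h, if_neg (fun h' => h (e.1 h'))]) a b
  rw [total_zero S hS (colW p a) (fun i j pl hpl => by
    rw [colW_cell p a hpl (Or.inl rfl), colW_cell p a hpl (Or.inr (Or.inl rfl)),
      colW_cell p a hpl (Or.inr (Or.inr rfl))]
    by_cases h : (p : ℤ) ∣ i - a
    · simp only [h, if_true]
      exact col_sum _ _ _ pl hpl
    · simp only [h, if_false, add_zero])] at h1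
  refine Eq.trans ?_ h1.symm
  refine Eq.trans ?_ (sum_eq_single a ?_ ?_).symm
  · refine sum_congr rfl fun j _ => ?_
    rw [← sum_om' (kind a j)]
    refine sum_congr rfl fun r hr => ?_
    have hr' := mem_range.1 hr
    unfold colW
    rw [decI_enc _ _ _ hr', decJ_enc _ _ _ hr', decR_enc _ _ _ hr']
    simp
  · intro i hi hne
    refine sum_eq_zero fun j _ => ?_
    refine sum_eq_zero fun r hr => ?_
    have hr' := mem_range.1 hr
    rw [mem_Ico] at hi
    unfold colW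
    rw [decI_enc _ _ _ hr', decJ_enc _ _ _ hr', decR_enc _ _ _ hr']
    rw [if_neg]
    intro h
    have := Int.le_of_dvd (by omega) h
    omega
  · intro h
    exact absurd (mem_Ico.2 ⟨le_rfl, by omega⟩) h

end core

/-- No macro-cell of kind `β` in the columns `≡ 2 mod 3`. -/
theorem kind_two_left {i : ℤ} (hi : i % 3 = 2) (j : ℤ) : kind i j = false := by
  unfold kind
  rw [decide_eq_false_iff_not]
  rintro ⟨l, h, -⟩
  cases l with
  | zero =>
    have : i % 3 = 1 := by simpa [Int.ModEq] using h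
    omega
  | succ l =>
    have h1 : (3 : ℤ) ∣ 3 ^ (l + 1) - i := (Dvd.intro_left (3 ^ (l + 1)) (by ring)).trans h.dvd
    have h2 : (3 : ℤ) ∣ 3 ^ (l + 1) := dvd_pow_self 3 (by omega)
    have h3 : (3 : ℤ) ∣ i := by
      have := dvd_sub h2 h1
      simpa using this
    omega

theorem kind_iff (i j : ℤ) : kind i j = true ↔ IsBeta i j := by
  classical
  unfold kind
  exact decide_eq_true_iff

theorem kind_comm (i j : ℤ) : kind i j = kind j i := by
  rw [Bool.eq_iff_iff, kind_iff, kind_iff]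
  constructor <;> rintro ⟨l, h1, h2⟩ <;> exact ⟨l, h2, h1⟩

/-- The kinds in the rows `≡ 3 ^ k mod 3 ^ (k + 1)`. -/
theorem kind_row {k : ℕ} {j : ℤ} (hj : j ≡ 3 ^ k [ZMOD 3 ^ (k + 1)]) (i : ℤ) :
    kind i j = true ↔ i ≡ 3 ^ k [ZMOD 3 ^ (k + 1)] := by
  rw [kind_iff]
  constructor
  · rintro ⟨l, h1, h2⟩
    have key : ∀ a b : ℕ, a < b → ∀ n : ℤ, n ≡ 3 ^ a [ZMOD 3 ^ (a + 1)] →
        n ≡ 3 ^ b [ZMOD 3 ^ (b + 1)] → False := by
      intro a b hab n ha hb
      have d1 : (3 : ℤ) ^ (a + 1) ∣ 3 ^ b := pow_dvd_pow 3 hab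
      have d2 : (3 : ℤ) ^ (a + 1) ∣ 3 ^ b - n := (pow_dvd_pow 3 (by omega)).trans hb.dvd
      have d3 : (3 : ℤ) ^ (a + 1) ∣ n := by
        have := dvd_sub d1 d2
        simpa using this
      have d4 : (3 : ℤ) ^ (a + 1) ∣ 3 ^ a := by
        have := dvd_add ha.dvd d3
        simpa using this
      have d5 : (3 : ℤ) ^ (a + 1) ≤ 3 ^ a := Int.le_of_dvd (by positivity) d4
      have d6 : (0 : ℤ) < 3 ^ a := by positivity
      rw [pow_succ] at d5
      linarith
    rcases lt_trichotomy k l with h | h | h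
    · exact (key k l h j hj h2).elim
    · subst h; exact h1
    · exact (key l k h j h2 hj).elim
  · intro h
    exact ⟨k, h, hj⟩

theorem count_sum (M n : ℕ) (hM : 0 < M) (v : ℤ) (f g : ZMod 3) (hM3 : 3 ∣ M) :
    ∑ i ∈ Ico v (v + (M * n : ℕ)), (if i ≡ v [ZMOD M] then f else g) = n * (f - g) := by
  have hM' : (0 : ℤ) < M := by exact_mod_cast hM
  have hMq : (M : ℚ) ≠ 0 := by positivity
  have e : ∀ i : ℤ, (if i ≡ v [ZMOD M] then f else g) =
      (if i ≡ v [ZMOD M] then (f - g) else 0) + g := by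
    intro i; split_ifs <;> ring
  have hc : ((#{i ∈ Ico v (v + (M * n : ℕ)) | i ≡ v [ZMOD M]} : ℕ) : ℤ) = n := by
    rw [Int.Ico_filter_modEq_card _ _ hM']
    have h1 : ((((v + (M * n : ℕ) : ℤ)) : ℚ) - (v : ℚ)) / ((M : ℤ) : ℚ) = ((n : ℤ) : ℚ) := by
      push_cast
      field_simp
      ring
    rw [h1, Int.ceil_intCast]
    simp
  have hc' : #{i ∈ Ico v (v + (M * n : ℕ)) | i ≡ v [ZMOD M]} = n := by exact_mod_cast hc
  have h3 : ((M : ℕ) : ZMod 3) = 0 := (ZMod.natCast_eq_zero_iff M 3).2 hM3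
  simp only [e]
  rw [sum_add_distrib, ← sum_filter, sum_const, sum_const, hc', Int.card_Ico]
  have h4 : (v + ((M * n : ℕ) : ℤ) - v).toNat = M * n := by omega
  rw [h4]
  simp only [nsmul_eq_mul]
  push_cast
  rw [h3]
  ring

/-- The combinatorial core: no fundamental domain is a union of tiles. -/
theorem no_FD {p q : ℕ} (hp : 0 < p) (hq : 0 < q) (S : Finset (Finset (ℤ × ℤ)))
    (hS : ∀ τ ∈ S, τ ∈ TQ) (hU : FD p q (S.biUnion id)) : False := by
  have hc := const_total hp hq hS hU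
  have prime3 : Nat.Prime 3 := by norm_num
  have hc3 : 3 ∣ p * q := (ZMod.natCast_eq_zero_iff _ _).1 hc
  have pq : 3 ∣ p → 3 ∣ q := by
    intro h3
    have h := col_total hp hq hS hU 2 (fun i j l h1 h2 _ => by
      have h3' : (3 : ℤ) ∣ p := by exact_mod_cast h3
      have h4 : (3 : ℤ) ∣ i - 2 := h3'.trans h1
      have h5 : (3 : ℤ) ∣ l.1 := h3'.trans h2
      rw [kind_two_left (by omega), kind_two_left (by omega)]) 0
    have h' : ∀ j, kind 2 j = false := kind_two_left (by norm_num)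
    simp only [h', Bool.false_eq_true, if_false, sum_const, Int.card_Ico, zero_add, sub_zero,
      Int.toNat_natCast, nsmul_eq_mul] at h
    have h2 : ((q * 2 : ℕ) : ZMod 3) = 0 := by push_cast; exact h
    have h4 := (ZMod.natCast_eq_zero_iff _ _).1 h2
    omega
  have qp : 3 ∣ q → 3 ∣ p := by
    intro h3
    have h := row_total hp hq hS hU 2 (fun i j l h1 _ h2 => by
      have h3' : (3 : ℤ) ∣ q := by exact_mod_cast h3
      have h4 : (3 : ℤ) ∣ j - 2 := h3'.trans h1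
      have h5 : (3 : ℤ) ∣ l.2 := h3'.trans h2
      rw [kind_comm, kind_comm i j, kind_two_left (by omega), kind_two_left (by omega)]) 0
    have h' : ∀ j, kind j 2 = false := fun j => by
      rw [kind_comm]; exact kind_two_left (by norm_num) j
    simp only [h', Bool.false_eq_true, if_false, sum_const, Int.card_Ico, zero_add, sub_zero,
      Int.toNat_natCast, nsmul_eq_mul] at h
    have h2 : ((p * 2 : ℕ) : ZMod 3) = 0 := by push_cast; exact h
    have h4 := (ZMod.natCast_eq_zero_iff _ _).1 h2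
    omega
  have hp3 : 3 ∣ p := by
    rcases (Nat.Prime.dvd_mul prime3).1 hc3 with h | h
    · exact h
    · exact qp h
  have hq3 : 3 ∣ q := pq hp3
  obtain ⟨c, p', hp', rfl⟩ := Nat.exists_eq_pow_mul_and_not_dvd hp.ne' 3 (by norm_num)
  obtain ⟨d, q', hq', rfl⟩ := Nat.exists_eq_pow_mul_and_not_dvd hq.ne' 3 (by norm_num)
  obtain ⟨c, rfl⟩ : ∃ k, c = k + 1 := by
    cases c with
    | zero => exact absurd (by simpa using hp3) hp'
    | succ k => exact ⟨k, rfl⟩
  obtain ⟨d, rfl⟩ : ∃ k, d = k + 1 := by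
    cases d with
    | zero => exact absurd (by simpa using hq3) hq'
    | succ k => exact ⟨k, rfl⟩
  have dP : ((3 : ℤ) ^ (c + 1)) ∣ ((3 ^ (c + 1) * p' : ℕ) : ℤ) := by
    push_cast; exact dvd_mul_right _ _
  have dQ : ((3 : ℤ) ^ (d + 1)) ∣ ((3 ^ (d + 1) * q' : ℕ) : ℤ) := by
    push_cast; exact dvd_mul_right _ _
  have modadd : ∀ k : ℕ, ∀ x y : ℤ, (3 : ℤ) ^ (k + 1) ∣ y →
      (x + y ≡ 3 ^ k [ZMOD 3 ^ (k + 1)] ↔ x ≡ 3 ^ k [ZMOD 3 ^ (k + 1)]) := by
    intro k x y hy
    have : x + y ≡ x [ZMOD 3 ^ (k + 1)] := by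
      have := (Int.modEq_zero_iff_dvd.2 hy).add_left x
      simpa using this
    exact ⟨fun h => this.symm.trans h, fun h => this.trans h⟩
  rcases le_total c d with hcd | hcd
  · have dQ' : ((3 : ℤ) ^ (c + 1)) ∣ ((3 ^ (d + 1) * q' : ℕ) : ℤ) :=
      (pow_dvd_pow 3 (by omega)).trans dQ
    have h := row_total hp hq hS hU (3 ^ c) (fun i j l h1 h2 h3 => by
      have hj : j ≡ 3 ^ c [ZMOD 3 ^ (c + 1)] := (Int.modEq_iff_dvd.2 (dQ'.trans h1)).symm
      have hj' : j + l.2 ≡ 3 ^ c [ZMOD 3 ^ (c + 1)] := (modadd c j l.2 (dQ'.trans h3)).2 hj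
      rw [Bool.eq_iff_iff, kind_row hj', kind_row hj, modadd c i l.1 (dP.trans h2)]) (3 ^ c)
    have e : ∀ i : ℤ, (if kind i (3 ^ c) then (0 : ZMod 3) else 2) =
        if i ≡ 3 ^ c [ZMOD ((3 ^ (c + 1) : ℕ) : ℤ)] then (0 : ZMod 3) else 2 := by
      intro i
      have := kind_row (k := c) (j := 3 ^ c) rfl i
      simp only [this]
      push_cast
      rfl
    simp only [e] at h
    rw [count_sum (3 ^ (c + 1)) p' (by positivity) (3 ^ c) 0 2 (dvd_pow_self 3 (by omega))] at h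
    have h2 : ((p' : ℕ) : ZMod 3) = 0 := by
      have e2 : ((0 : ZMod 3) - 2) = 1 := by decide
      rwa [e2, mul_one] at h
    exact hp' ((ZMod.natCast_eq_zero_iff _ _).1 h2)
  · have dP' : ((3 : ℤ) ^ (d + 1)) ∣ ((3 ^ (c + 1) * p' : ℕ) : ℤ) :=
      (pow_dvd_pow 3 (by omega)).trans dP
    have h := col_total hp hq hS hU (3 ^ d) (fun i j l h1 h2 h3 => by
      have hj : i ≡ 3 ^ d [ZMOD 3 ^ (d + 1)] := (Int.modEq_iff_dvd.2 (dP'.trans h1)).symm
      have hj' : i + l.1 ≡ 3 ^ d [ZMOD 3 ^ (d + 1)] := (modadd d i l.1 (dP'.trans h2)).2 hj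
      rw [kind_comm, kind_comm i j, Bool.eq_iff_iff, kind_row hj', kind_row hj,
        modadd d j l.2 (dQ.trans h3)]) (3 ^ d)
    have e : ∀ i : ℤ, (if kind (3 ^ d) i then (1 : ZMod 3) else 2) =
        if i ≡ 3 ^ d [ZMOD ((3 ^ (d + 1) : ℕ) : ℤ)] then (1 : ZMod 3) else 2 := by
      intro i
      have := kind_row (k := d) (j := 3 ^ d) rfl i
      rw [kind_comm] at this
      simp only [this]
      push_cast
      rfl
    simp only [e] at h
    rw [count_sum (3 ^ (d + 1)) q' (by positivity) (3 ^ d) 1 2 (dvd_pow_self 3 (by omega))] at h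
    have h2 : ((q' : ℕ) : ZMod 3) = 0 := by
      have e2 : ((1 : ZMod 3) - 2) = -1 := by decide
      rw [e2] at h
      linear_combination -h
    exact hq' ((ZMod.natCast_eq_zero_iff _ _).1 h2)

end Pool.Agent.Lib.MP_df5726_co
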